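import Pool.Agent.Lib.MP_f7203b_co.Count

/-!
# Problem MP_f7203b_co, Question Q1

There is an equivelar polyhedron of type `{5,5}` in Euclidean 3-space: 48 planar pentagons, 120
edges, 48 vertices, all of them 5-valent (so the genus is 13 by Euler's formula).
-/

namespace Pool.Agent.Results.MP_f7203b_co.Equivelar55

open Pool.Agent.MPf7203b

/-- There is an equivelar polyhedron in Euclidean 3-space all of whose faces are pentagons and all
of whose vertices are 5-valent. It has 48 faces, 48 vertices and 120 edges. -/
theorem result : ∃ (v : Fin 48 → Fin 5 → E3) (R : Fin 48 → Set E3), IsEquivelar 5 5 v R ∧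
    {x : E3 | ∃ f i, v f i = x}.ncard = 48 ∧
    {e : Sym2 E3 | ∃ f i, e = s(v f i, v f (i + 1))}.ncard = 120 := by
  obtain ⟨z, hz, he⟩ := exists_solution
  exact ⟨vert z, reg z, isEquivelar hz he, ncard_vertices hz, ncard_edges hz⟩

end Pool.Agent.Results.MP_f7203b_co.Equivelar55
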